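import Pool.Agent.Run7.h281.LX.Tab

/-!
# A poset of width `3`
-/

set_option autoImplicit false

namespace Run7.h281.LX

/-- the poset with `10` elements, width `3`, `187` linear extensions and balance constant
`6 / 17` -/
def c3 : Cert 10 where
  P := [0, 0, 1, 1, 11, 7, 39, 103, 111, 255]
  A := [1, 2, 3]
  C := [[0, 2, 5, 6, 7], [1, 4, 9], [3, 8]]
  e := 187
  T0 := [(0, 1), (256, 1), (512, 1), (528, 1), (640, 1), (656, 2), (768, 2), (784, 3), (792, 3),
  (896, 3), (912, 8), (920, 11), (960, 3), (976, 11), (984, 22), (992, 3), (996, 3), (1008, 14),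
  (1010, 14), (1012, 17), (1014, 31), (1016, 36), (1018, 50), (1020, 53), (1021, 53), (1022,
  134), (1023, 187)]
  TT := [(1, 0, 53, [(0, 1), (256, 1), (512, 1), (528, 1), (640, 1), (656, 2), (768, 2), (784,
  3), (792, 3), (896, 3), (912, 8), (920, 11), (960, 3), (976, 11), (984, 22), (992, 3), (996,
  3), (1008, 14), (1012, 17), (1016, 36), (1020, 53), (1021, 53), (1023, 53)]), (2, 1, 64, [(0,
  1), (256, 1), (512, 1), (528, 1), (640, 1), (656, 2), (768, 2), (784, 3), (792, 3), (896, 3),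
  (912, 8), (920, 11), (960, 3), (976, 11), (984, 22), (992, 3), (1008, 14), (1010, 14), (1014,
  14), (1016, 36), (1018, 50), (1022, 64), (1023, 64)]), (3, 1, 45, [(0, 1), (256, 1), (512, 1),
  (528, 1), (640, 1), (656, 2), (768, 2), (784, 3), (896, 3), (912, 8), (960, 3), (976, 11),
  (992, 3), (996, 3), (1008, 14), (1010, 14), (1012, 17), (1014, 31), (1018, 14), (1022, 45),
  (1023, 45)]), (3, 2, 65, [(0, 1), (256, 1), (512, 1), (528, 1), (640, 1), (656, 2), (768, 2),
  (784, 3), (896, 3), (912, 8), (960, 3), (976, 11), (992, 3), (996, 3), (1008, 14), (1010, 14),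
  (1012, 17), (1014, 31), (1020, 17), (1021, 17), (1022, 48), (1023, 65)]), (4, 2, 9, [(0, 1),
  (256, 1), (512, 1), (640, 1), (768, 2), (896, 3), (960, 3), (992, 3), (996, 3), (1012, 3),
  (1014, 3), (1020, 3), (1021, 3), (1022, 6), (1023, 9)]), (5, 3, 66, [(0, 1), (256, 1), (512,
  1), (528, 1), (640, 1), (656, 2), (768, 2), (784, 3), (792, 3), (896, 3), (912, 8), (920, 11),
  (960, 3), (976, 11), (984, 22), (1016, 22), (1018, 22), (1020, 22), (1021, 22), (1022, 44),
  (1023, 66)]), (6, 3, 33, [(0, 1), (256, 1), (512, 1), (528, 1), (640, 1), (656, 2), (768, 2),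
  (784, 3), (792, 3), (896, 3), (912, 8), (920, 11), (984, 11), (1016, 11), (1018, 11), (1020,
  11), (1021, 11), (1022, 22), (1023, 33)]), (7, 3, 9, [(0, 1), (256, 1), (512, 1), (528, 1),
  (768, 2), (784, 3), (792, 3), (920, 3), (984, 3), (1016, 3), (1018, 3), (1020, 3), (1021, 3),
  (1022, 6), (1023, 9)]), (4, 5, 33, [(0, 1), (256, 1), (512, 1), (640, 1), (768, 2), (896, 3),
  (960, 3), (992, 3), (996, 3), (1008, 3), (1010, 3), (1012, 6), (1014, 9), (1016, 3), (1018,
  6), (1020, 9), (1021, 9), (1022, 24), (1023, 33)]), (4, 6, 66, [(0, 1), (256, 1), (512, 1),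
  (640, 1), (768, 2), (896, 3), (960, 3), (976, 3), (984, 3), (992, 3), (996, 3), (1008, 6),
  (1010, 6), (1012, 9), (1014, 15), (1016, 9), (1018, 15), (1020, 18), (1021, 18), (1022, 48),
  (1023, 66)]), (7, 4, 65, [(0, 1), (256, 1), (512, 1), (528, 1), (656, 1), (768, 2), (784, 3),
  (792, 3), (912, 4), (920, 7), (976, 4), (984, 11), (1008, 4), (1010, 4), (1012, 4), (1014, 8),
  (1016, 15), (1018, 19), (1020, 19), (1021, 19), (1022, 46), (1023, 65)]), (8, 4, 45, [(0, 1),
  (512, 1), (528, 1), (640, 1), (656, 2), (784, 1), (792, 1), (912, 3), (920, 4), (976, 3),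
  (984, 7), (1008, 3), (1010, 3), (1012, 3), (1014, 6), (1016, 10), (1018, 13), (1020, 13),
  (1021, 13), (1022, 32), (1023, 45)]), (8, 7, 64, [(0, 1), (512, 1), (528, 1), (640, 1), (656,
  2), (896, 1), (912, 3), (920, 3), (960, 1), (976, 4), (984, 7), (992, 1), (996, 1), (1008, 5),
  (1010, 5), (1012, 6), (1014, 11), (1016, 12), (1018, 17), (1020, 18), (1021, 18), (1022, 46),
  (1023, 64)]), (9, 8, 53, [(0, 1), (256, 1), (768, 1), (784, 1), (792, 1), (896, 1), (912, 2),
  (920, 3), (960, 1), (976, 3), (984, 6), (992, 1), (996, 1), (1008, 4), (1010, 4), (1012, 5),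
  (1014, 9), (1016, 10), (1018, 14), (1020, 15), (1021, 15), (1022, 38), (1023, 53)])]

lemma c3_okO : c3.okO = true := by decide +kernel

lemma c3_okW : c3.okW 3 = true := by decide +kernel

lemma c3_okC : c3.okC 6 17 = true := by decide +kernel

end Run7.h281.LX
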