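import Mathlib

/-!
# Listing the linear extensions of an order on `Fin n`
-/

set_option autoImplicit false

namespace Run7.h281.LX

variable {n : ℕ}

/-- the linear extensions of the elements in the list `s`, as lists -/
def ext (lt : Fin n → Fin n → Bool) : ℕ → List (Fin n) → List (List (Fin n))
  | 0, _ => [[]]
  | k + 1, s => (s.filter fun x => s.all fun y => !lt y x).flatMap fun x =>
      (ext lt k (s.erase x)).map (x :: ·)

lemma mem_ext (lt : Fin n → Fin n → Bool) (hirr : ∀ a, lt a a = false) : ∀ (k : ℕ)
    (s : List (Fin n)), s.length = k → ∀ l : List (Fin n), l ∈ ext lt k s ↔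
      l.Perm s ∧ l.Pairwise (fun a b => lt b a = false) := by
  intro k
  induction k with
  | zero =>
    intro s hs l
    have h0 : s = [] := List.length_eq_zero_iff.mp hs
    subst h0
    simp only [ext, List.mem_singleton, List.perm_nil]
    constructor
    · rintro rfl
      exact ⟨rfl, List.Pairwise.nil⟩
    · exact fun h => h.1
  | succ k ih =>
    intro s hs l
    simp only [ext, List.mem_flatMap, List.mem_filter, List.all_eq_true, Bool.not_eq_true',
      List.mem_map]
    constructor
    · rintro ⟨x, ⟨hx, hall⟩, l', hl', rfl⟩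
      have hlen : (s.erase x).length = k := by
        rw [List.length_erase_of_mem hx, hs]
        rfl
      obtain ⟨h1, h2⟩ := (ih (s.erase x) hlen l').mp hl'
      refine ⟨(h1.cons x).trans (List.perm_cons_erase hx).symm, List.Pairwise.cons ?_ h2⟩
      intro b hb
      exact hall b (List.mem_of_mem_erase (h1.subset hb))
    · rintro ⟨h1, h2⟩
      cases l with
      | nil =>
        have := h1.length_eq
        rw [hs] at this
        simp at this
      | cons x l' =>
        have hx : x ∈ s := h1.subset (by simp)
        have hlen : (s.erase x).length = k := by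
          rw [List.length_erase_of_mem hx, hs]
          rfl
        have h3 : l'.Perm (s.erase x) := (List.cons_perm_iff_perm_erase.mp h1).2
        obtain ⟨h4, h5⟩ := List.pairwise_cons.mp h2
        refine ⟨x, ⟨hx, ?_⟩, l', (ih (s.erase x) hlen l').mpr ⟨h3, h5⟩, rfl⟩
        intro y hy
        have hy' : y ∈ x :: l' := h1.symm.subset hy
        rcases List.mem_cons.mp hy' with h6 | h6
        · rw [h6]
          exact hirr x
        · exact h4 y h6

lemma nodup_ext (lt : Fin n → Fin n → Bool) : ∀ (k : ℕ) (s : List (Fin n)), s.Nodup →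
    (ext lt k s).Nodup := by
  intro k
  induction k with
  | zero =>
    intro s _
    simp [ext]
  | succ k ih =>
    intro s hs
    simp only [ext]
    rw [List.nodup_flatMap]
    constructor
    · intro x _
      exact (ih _ (hs.erase x)).map (fun a b h => by simpa using h)
    · refine (hs.filter _).imp ?_
      intro a b hab l h1 h2
      obtain ⟨l1, -, rfl⟩ := List.mem_map.mp h1
      obtain ⟨l2, -, h4⟩ := List.mem_map.mp h2
      exact hab (by
        have := List.cons.inj h4
        exact this.1.symm)

/-- all linear extensions -/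
def LX (lt : Fin n → Fin n → Bool) : List (List (Fin n)) := ext lt n (List.finRange n)

lemma mem_LX (lt : Fin n → Fin n → Bool) (hirr : ∀ a, lt a a = false) (l : List (Fin n)) :
    l ∈ LX lt ↔ l.Perm (List.finRange n) ∧ l.Pairwise (fun a b => lt b a = false) :=
  mem_ext lt hirr n _ (List.length_finRange) l

lemma idx (σ : Equiv.Perm (Fin n)) (x : Fin n) :
    (List.ofFn fun i => σ.symm i).idxOf x = (σ x : ℕ) := by
  have hnd : (List.ofFn fun i => σ.symm i).Nodup := List.nodup_ofFn.mpr σ.symm.injective
  have hlt : (σ x : ℕ) < (List.ofFn fun i => σ.symm i).length := by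
    rw [List.length_ofFn]
    exact (σ x).2
  have h1 := hnd.idxOf_getElem (σ x : ℕ) hlt
  have h2 : (List.ofFn fun i => σ.symm i)[(σ x : ℕ)]'hlt = x := by
    rw [List.getElem_ofFn]
    simp
  rw [h2] at h1
  exact h1

theorem card_LX (r : Fin n → Fin n → Prop) (lt : Fin n → Fin n → Bool)
    (hlt : ∀ a b, lt a b = true ↔ r a b ∧ a ≠ b) (Q : Equiv.Perm (Fin n) → Prop)
    (P : List (Fin n) → Bool) (hPQ : ∀ σ : Equiv.Perm (Fin n),
      Q σ ↔ P (List.ofFn fun i => σ.symm i) = true) :
    Nat.card {σ : Equiv.Perm (Fin n) // (∀ a b, r a b → σ a ≤ σ b) ∧ Q σ} =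
      ((LX lt).filter P).length := by
  classical
  have hirr : ∀ a, lt a a = false := by
    intro a
    rw [← Bool.not_eq_true, hlt]
    simp
  have hmono : ∀ σ : Equiv.Perm (Fin n), (∀ a b, r a b → σ a ≤ σ b) ↔
      (List.ofFn fun i => σ.symm i).Pairwise (fun a b => lt b a = false) := by
    intro σ
    rw [List.pairwise_ofFn]
    constructor
    · intro h i j hij
      rw [← Bool.not_eq_true, hlt]
      rintro ⟨h1, -⟩
      have h2 := h _ _ h1
      simp only [Equiv.apply_symm_apply] at h2
      exact absurd hij (not_lt.mpr h2)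
    · intro h a b hab
      by_cases hne : a = b
      · rw [hne]
      by_contra hcon
      have h1 := h (i := σ b) (j := σ a) (not_le.mp hcon)
      rw [Equiv.symm_apply_apply, Equiv.symm_apply_apply, ← Bool.not_eq_true, hlt] at h1
      exact h1 ⟨hab, hne⟩
  have hnd : ((LX lt).filter P).Nodup :=
    (nodup_ext lt n _ (List.nodup_finRange n)).filter P
  have hmem : ∀ σ : Equiv.Perm (Fin n), ((∀ a b, r a b → σ a ≤ σ b) ∧ Q σ) ↔
      (List.ofFn fun i => σ.symm i) ∈ (LX lt).filter P := by
    intro σ
    rw [List.mem_filter, mem_LX lt hirr, ← hmono, ← hPQ]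
    constructor
    · rintro ⟨h1, h2⟩
      refine ⟨⟨?_, h1⟩, h2⟩
      rw [List.perm_ext_iff_of_nodup (List.nodup_ofFn.mpr σ.symm.injective)
        (List.nodup_finRange n)]
      intro a
      simp only [List.mem_ofFn, List.mem_finRange, iff_true]
      exact ⟨σ a, by simp⟩
    · rintro ⟨⟨-, h1⟩, h2⟩
      exact ⟨h1, h2⟩
  have e : {σ : Equiv.Perm (Fin n) // (∀ a b, r a b → σ a ≤ σ b) ∧ Q σ} ≃
      {l // l ∈ ((LX lt).filter P).toFinset} := by
    refine Equiv.ofBijective (fun σ => ⟨List.ofFn fun i => σ.1.symm i, ?_⟩) ⟨?_, ?_⟩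
    · rw [List.mem_toFinset]
      exact (hmem σ.1).mp σ.2
    · intro σ τ h
      have h1 : (List.ofFn fun i => σ.1.symm i) = List.ofFn fun i => τ.1.symm i :=
        congrArg Subtype.val h
      have h2 := List.ofFn_injective h1
      apply Subtype.ext
      have h3 : σ.1.symm = τ.1.symm := Equiv.ext fun i => congrFun h2 i
      exact Equiv.symm_bijective.injective h3
    · rintro ⟨l, hl⟩
      rw [List.mem_toFinset] at hl
      have hl' := (mem_LX lt hirr l).mp (List.mem_filter.mp hl).1
      have hlen : l.length = n := by rw [hl'.1.length_eq, List.length_finRange]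
      have hndl : l.Nodup := hl'.1.nodup_iff.mpr (List.nodup_finRange n)
      have hall : ∀ x : Fin n, x ∈ l := fun x => hl'.1.symm.subset (List.mem_finRange x)
      let g : Fin n ≃ Fin n := (finCongr hlen.symm).trans (hndl.getEquivOfForallMemList l hall)
      have hg : (List.ofFn fun i => g i) = l := by
        apply List.ext_getElem
        · rw [List.length_ofFn, hlen]
        · intro i h1 h2
          rw [List.getElem_ofFn]
          rfl
      have hg2 : (List.ofFn fun i => g.symm.symm i) = l := by
        rw [Equiv.symm_symm]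
        exact hg
      refine ⟨⟨g.symm, (hmem g.symm).mpr ?_⟩, ?_⟩
      · rw [hg2]
        exact hl
      · apply Subtype.ext
        exact hg2
  rw [Nat.card_congr e, Nat.card_eq_fintype_card, Fintype.card_coe,
    List.toFinset_card_of_nodup hnd]

/-- the number of the linear extensions -/
theorem card_all (r : Fin n → Fin n → Prop) (lt : Fin n → Fin n → Bool)
    (hlt : ∀ a b, lt a b = true ↔ r a b ∧ a ≠ b) :
    Nat.card {σ : Equiv.Perm (Fin n) // ∀ a b, r a b → σ a ≤ σ b} = (LX lt).length := by
  have h := card_LX r lt hlt (fun _ => True) (fun _ => true) (fun σ => by simp)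
  simp only [and_true, List.filter_true] at h
  exact h

/-- the number of the linear extensions with `x` before `y` -/
theorem card_before (r : Fin n → Fin n → Prop) (lt : Fin n → Fin n → Bool)
    (hlt : ∀ a b, lt a b = true ↔ r a b ∧ a ≠ b) (x y : Fin n) :
    Nat.card {σ : Equiv.Perm (Fin n) // (∀ a b, r a b → σ a ≤ σ b) ∧ σ x < σ y} =
      ((LX lt).filter fun l => decide (l.idxOf x < l.idxOf y)).length := by
  apply card_LX r lt hlt
  intro σ
  rw [decide_eq_true_iff, idx, idx]
  exact Iff.rfl

end Run7.h281.LX
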