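import Pool.Agent.Run7.h281.LX.Ext

/-!
# Counting linear extensions with a table of the upper sets

The upper sets are given by the bits of natural numbers.
-/

set_option autoImplicit false

namespace Run7.h281.LX

variable {n : ℕ}

/-- the minimal elements of `s` -/
def mins (lt : Fin n → Fin n → Bool) (s : List (Fin n)) : List (Fin n) :=
  s.filter fun x => s.all fun y => !lt y x

/-- the set with the bits of `m` -/
def dec (n m : ℕ) : List (Fin n) := (List.finRange n).filter fun i => m.testBit (i : ℕ)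

lemma dec_nodup (n m : ℕ) : (dec n m).Nodup := (List.nodup_finRange n).filter _

lemma mem_dec (m : ℕ) (x : Fin n) : x ∈ dec n m ↔ m.testBit (x : ℕ) = true := by
  unfold dec
  simp

lemma dec_erase (m : ℕ) (x : Fin n) (hx : x ∈ dec n m) :
    (dec n m).erase x = dec n (m ^^^ 2 ^ (x : ℕ)) := by
  rw [(dec_nodup n m).erase_eq_filter]
  rw [mem_dec] at hx
  unfold dec
  rw [List.filter_filter]
  refine List.filter_congr fun i _ => ?_
  rw [Nat.testBit_xor, Nat.testBit_two_pow]
  by_cases h : i = x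
  · subst h
    simp [hx]
  · have h2 : ¬ ((x : ℕ) = (i : ℕ)) := fun h3 => h (Fin.ext h3.symm)
    simp [h, h2]

/-- the check of one entry -/
def ok1 (lt : Fin n → Fin n → Bool) (T : List (ℕ × ℕ)) (e : ℕ × ℕ) : Bool :=
  bif (dec n e.1).isEmpty then e.2 == 1 else
    ((mins lt (dec n e.1)).all fun x : Fin n => (T.lookup (e.1 ^^^ 2 ^ (x : ℕ))).isSome) &&
      (e.2 == ((mins lt (dec n e.1)).map fun x : Fin n =>
        (T.lookup (e.1 ^^^ 2 ^ (x : ℕ))).getD 0).sum)

/-- the check of a table -/
def okT (lt : Fin n → Fin n → Bool) (T : List (ℕ × ℕ)) : Bool := T.all (ok1 lt T)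

lemma look_mem (T : List (ℕ × ℕ)) (s : ℕ) (v : ℕ) (h : T.lookup s = some v) :
    (s, v) ∈ T := by
  induction T with
  | nil => simp at h
  | cons a T ih =>
    obtain ⟨t, w⟩ := a
    rw [List.lookup_cons] at h
    by_cases hst : s == t
    · rw [hst] at h
      simp only [Option.some.injEq] at h
      rw [beq_iff_eq] at hst
      rw [hst, h]
      exact List.mem_cons_self
    · rw [Bool.not_eq_true] at hst
      rw [hst] at h
      exact List.mem_cons_of_mem _ (ih h)

lemma length_ext_succ (lt : Fin n → Fin n → Bool) (k : ℕ) (s : List (Fin n)) :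
    (ext lt (k + 1) s).length = ((mins lt s).map fun x => (ext lt k (s.erase x)).length).sum := by
  simp only [ext, mins, List.length_flatMap, List.length_map]

theorem okT_spec (lt : Fin n → Fin n → Bool) (T : List (ℕ × ℕ))
    (hT : okT lt T = true) : ∀ (k : ℕ) (m : ℕ) (v : ℕ), (dec n m).length = k → (m, v) ∈ T →
    (ext lt k (dec n m)).length = v := by
  unfold okT at hT
  rw [List.all_eq_true] at hT
  intro k
  induction k with
  | zero =>
    intro m v hs hv
    have h0 : dec n m = [] := List.length_eq_zero_iff.mp hs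
    have h1 := hT _ hv
    simp only [ok1, h0, List.isEmpty_nil, cond_true, beq_iff_eq] at h1
    rw [h1]
    rfl
  | succ k ih =>
    intro m v hs hv
    have h0 : (dec n m).isEmpty = false := by
      rw [List.isEmpty_eq_false_iff]
      intro h
      rw [h] at hs
      simp at hs
    have h1 := hT _ hv
    simp only [ok1, h0, cond_false, Bool.and_eq_true, List.all_eq_true, beq_iff_eq] at h1
    obtain ⟨h2, h3⟩ := h1
    rw [length_ext_succ, h3]
    congr 1
    refine List.map_congr_left fun x hx => ?_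
    obtain ⟨w, hw⟩ := Option.isSome_iff_exists.mp (h2 x hx)
    rw [hw, Option.getD_some]
    have hxs : x ∈ dec n m := (List.mem_filter.mp hx).1
    rw [dec_erase m x hxs]
    refine ih _ w ?_ (look_mem T _ w hw)
    rw [← dec_erase m x hxs, List.length_erase_of_mem hxs, hs]
    rfl

lemma dec_full (n : ℕ) : dec n (2 ^ n - 1) = List.finRange n := by
  unfold dec
  rw [List.filter_eq_self]
  intro a _
  rw [Nat.testBit_two_pow_sub_one]
  simp

/-- a certificate for the number of the linear extensions -/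
theorem count_of (lt : Fin n → Fin n → Bool) (T : List (ℕ × ℕ)) (v : ℕ)
    (hT : okT lt T = true) (hv : T.lookup (2 ^ n - 1) = some v) : (LX lt).length = v := by
  have h := okT_spec lt T hT n (2 ^ n - 1) v (by rw [dec_full, List.length_finRange])
    (look_mem T _ v hv)
  rw [dec_full] at h
  exact h

/-- the order relation generated by adding `x < y` -/
def addlt (lt : Fin n → Fin n → Bool) (x y : Fin n) : Fin n → Fin n → Bool :=
  fun a b => lt a b || (a == x && b == y)

/-- the linear extensions with `x` before `y` are those of the relation with `x < y` added -/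
theorem card_before_add (r : Fin n → Fin n → Prop) (lt : Fin n → Fin n → Bool)
    (hlt : ∀ a b, lt a b = true ↔ r a b ∧ a ≠ b) (x y : Fin n) (hxy : x ≠ y) :
    Nat.card {σ : Equiv.Perm (Fin n) // (∀ a b, r a b → σ a ≤ σ b) ∧ σ x < σ y} =
      (LX (addlt lt x y)).length := by
  rw [← card_all (fun a b => r a b ∨ (a = x ∧ b = y)) (addlt lt x y)]
  · apply Nat.card_congr
    refine Equiv.subtypeEquivRight fun σ => ?_
    constructor
    · rintro ⟨h1, h2⟩ a b (h3 | ⟨rfl, rfl⟩)
      · exact h1 a b h3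
      · exact h2.le
    · intro h
      refine ⟨fun a b h3 => h a b (Or.inl h3), ?_⟩
      exact lt_of_le_of_ne (h x y (Or.inr ⟨rfl, rfl⟩)) fun h4 => hxy (σ.injective h4)
  · intro a b
    unfold addlt
    rw [Bool.or_eq_true, hlt, Bool.and_eq_true, beq_iff_eq, beq_iff_eq]
    constructor
    · rintro (⟨h1, h2⟩ | ⟨rfl, rfl⟩)
      · exact ⟨Or.inl h1, h2⟩
      · exact ⟨Or.inr ⟨rfl, rfl⟩, hxy⟩
    · rintro ⟨h1 | h1, h2⟩
      · exact Or.inl ⟨h1, h2⟩
      · exact Or.inr h1

/-- the strict relation given by the masks of the predecessors -/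
def ltOf (n : ℕ) (P : List ℕ) : Fin n → Fin n → Bool :=
  fun a b => (P.getD (b : ℕ) 0).testBit (a : ℕ)

/-- a certificate that the balance constant is at most `p / q` and that the width is `w`:
`P` the masks of the predecessors, `A` an antichain of `w` elements, `C` a partition into `w`
chains, `T0` the table for all linear extensions, and for every incomparable pair a table for the
linear extensions with `x` before `y` -/
structure Cert (n : ℕ) where
  P : List ℕ
  A : List (Fin n)
  C : List (List (Fin n))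
  e : ℕ
  T0 : List (ℕ × ℕ)
  TT : List (Fin n × Fin n × ℕ × List (ℕ × ℕ))

/-- the strict order -/
def Cert.lt (c : Cert n) : Fin n → Fin n → Bool := ltOf n c.P

/-- the order -/
def Cert.r (c : Cert n) (a b : Fin n) : Prop := a = b ∨ c.lt a b = true

/-- the check of the order -/
def Cert.okO (c : Cert n) : Bool :=
  ((List.finRange n).all fun a => !c.lt a a) &&
  ((List.finRange n).all fun a => (List.finRange n).all fun b => !c.lt a b ||
    (List.finRange n).all fun d => !c.lt b d || c.lt a d)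

/-- the check of the width -/
def Cert.okW (c : Cert n) (w : ℕ) : Bool :=
  (c.A.length == w) && decide c.A.Nodup &&
  (c.A.all fun a => c.A.all fun b => !c.lt a b) &&
  (c.C.length == w) &&
  ((List.finRange n).all fun a => c.C.any fun l => l.contains a) &&
  (c.C.all fun l => l.all fun a => l.all fun b => (a == b) || c.lt a b || c.lt b a)

/-- the check of the counts -/
def Cert.okC (c : Cert n) (p q : ℕ) : Bool :=
  okT c.lt c.T0 && (c.T0.lookup (2 ^ n - 1) == some c.e) && decide (0 < c.e) &&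
  (c.TT.all fun t => (t.1 != t.2.1) && okT (addlt c.lt t.1 t.2.1) t.2.2.2 &&
    (t.2.2.2.lookup (2 ^ n - 1) == some t.2.2.1) && decide (t.2.2.1 * q ≤ p * c.e)) &&
  ((List.finRange n).all fun a => (List.finRange n).all fun b =>
    (a == b) || c.lt a b || c.lt b a ||
    (c.TT.any fun t => (t.1 == a && t.2.1 == b) || (t.1 == b && t.2.1 == a)))

theorem Cert.po (c : Cert n) (h : c.okO = true) :
    (∀ a, c.r a a) ∧ (∀ a b d, c.r a b → c.r b d → c.r a d) ∧
    (∀ a b, c.r a b → c.r b a → a = b) := by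
  unfold Cert.okO at h
  simp only [Bool.and_eq_true, List.all_eq_true, Bool.or_eq_true, Bool.not_eq_true'] at h
  obtain ⟨h1, h2⟩ := h
  have htr : ∀ a b d, c.lt a b = true → c.lt b d = true → c.lt a d = true := by
    intro a b d hab hbd
    rcases h2 a (List.mem_finRange a) b (List.mem_finRange b) with h3 | h3
    · rw [hab] at h3
      exact absurd h3 (by simp)
    · rcases h3 d (List.mem_finRange d) with h4 | h4
      · rw [hbd] at h4
        exact absurd h4 (by simp)
      · exact h4
  refine ⟨fun a => Or.inl rfl, ?_, ?_⟩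
  · rintro a b d (rfl | hab) (rfl | hbd)
    · exact Or.inl rfl
    · exact Or.inr hbd
    · exact Or.inr hab
    · exact Or.inr (htr a b d hab hbd)
  · rintro a b (rfl | hab) (h3 | hba)
    · rfl
    · rfl
    · exact h3.symm
    · have := htr a b a hab hba
      rw [h1 a (List.mem_finRange a)] at this
      exact absurd this (by simp)

theorem Cert.wid (c : Cert n) (w : ℕ) (h : c.okW w = true) :
    (∃ s : Finset (Fin n), s.card = w ∧ ∀ a ∈ s, ∀ b ∈ s, a ≠ b → ¬ c.r a b) ∧
    (∀ s : Finset (Fin n), (∀ a ∈ s, ∀ b ∈ s, a ≠ b → ¬ c.r a b) → s.card ≤ w) := by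
  unfold Cert.okW at h
  simp only [Bool.and_eq_true, List.all_eq_true, Bool.or_eq_true, Bool.not_eq_true',
    beq_iff_eq, decide_eq_true_iff, List.any_eq_true, List.contains_iff_mem] at h
  obtain ⟨⟨⟨⟨⟨h1, h2⟩, h3⟩, h4⟩, h5⟩, h6⟩ := h
  constructor
  · refine ⟨c.A.toFinset, by rw [List.toFinset_card_of_nodup h2, h1], ?_⟩
    intro a ha b hb hab hr
    rcases hr with hr | hr
    · exact hab hr
    · rw [h3 a (List.mem_toFinset.mp ha) b (List.mem_toFinset.mp hb)] at hr
      exact absurd hr (by simp)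
  · intro s hs
    classical
    have hex : ∀ a : Fin n, ∃ l ∈ c.C, a ∈ l := fun a => h5 a (List.mem_finRange a)
    choose f hf1 hf2 using hex
    have hinj : Set.InjOn f (s : Set (Fin n)) := by
      intro a ha b hb hab
      by_contra hne
      have h7 := hf2 a
      have h8 := hf2 b
      rw [← hab] at h8
      rcases h6 (f a) (hf1 a) a h7 b h8 with (h9 | h9) | h9
      · exact hne h9
      · exact hs a ha b hb hne (Or.inr h9)
      · exact hs b hb a ha (Ne.symm hne) (Or.inr h9)
    calc s.card = (s.image f).card := (Finset.card_image_of_injOn hinj).symm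
      _ ≤ c.C.toFinset.card := by
          apply Finset.card_le_card
          intro l hl
          obtain ⟨a, -, rfl⟩ := Finset.mem_image.mp hl
          exact List.mem_toFinset.mpr (hf1 a)
      _ ≤ c.C.length := List.toFinset_card_le _
      _ = w := h4

theorem Cert.lt_iff (c : Cert n) (h : c.okO = true) (a b : Fin n) :
    c.lt a b = true ↔ c.r a b ∧ a ≠ b := by
  unfold Cert.okO at h
  simp only [Bool.and_eq_true, List.all_eq_true, Bool.not_eq_true'] at h
  unfold Cert.r
  constructor
  · intro h1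
    refine ⟨Or.inr h1, ?_⟩
    rintro rfl
    rw [h.1 a (List.mem_finRange a)] at h1
    exact absurd h1 (by simp)
  · rintro ⟨h1 | h1, h2⟩
    · exact absurd h1 h2
    · exact h1

theorem Cert.bal (c : Cert n) (p q : ℕ) (hO : c.okO = true) (hC : c.okC p q = true)
    (hq : 0 < q) (x y : Fin n) (hxy : ¬ c.r x y) (hyx : ¬ c.r y x) :
    min ((Nat.card {σ : Equiv.Perm (Fin n) //
          (∀ a b, c.r a b → σ a ≤ σ b) ∧ σ x < σ y} : ℝ) /
        (Nat.card {σ : Equiv.Perm (Fin n) // ∀ a b, c.r a b → σ a ≤ σ b} : ℝ))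
      ((Nat.card {σ : Equiv.Perm (Fin n) //
          (∀ a b, c.r a b → σ a ≤ σ b) ∧ σ y < σ x} : ℝ) /
        (Nat.card {σ : Equiv.Perm (Fin n) // ∀ a b, c.r a b → σ a ≤ σ b} : ℝ)) ≤
      (p : ℝ) / q := by
  unfold Cert.okC at hC
  simp only [Bool.and_eq_true, List.all_eq_true, Bool.or_eq_true, beq_iff_eq, bne_iff_ne,
    decide_eq_true_iff, List.any_eq_true] at hC
  obtain ⟨⟨⟨⟨h1, h2⟩, h3⟩, h4⟩, h5⟩ := hC
  have hlt := c.lt_iff hO
  have hE : Nat.card {σ : Equiv.Perm (Fin n) // ∀ a b, c.r a b → σ a ≤ σ b} = c.e := by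
    rw [card_all c.r c.lt hlt]
    exact count_of _ _ _ h1 h2
  have he : (0 : ℝ) < c.e := by exact_mod_cast h3
  have hq' : (0 : ℝ) < q := by exact_mod_cast hq
  have hne : x ≠ y := fun h => hxy (Or.inl h)
  have hcount : ∀ t ∈ c.TT, ((Nat.card {σ : Equiv.Perm (Fin n) //
      (∀ a b, c.r a b → σ a ≤ σ b) ∧ σ t.1 < σ t.2.1} : ℝ)) / c.e ≤ (p : ℝ) / q := by
    intro t ht
    obtain ⟨⟨⟨g1, g2⟩, g3⟩, g4⟩ := h4 t ht
    rw [card_before_add c.r c.lt hlt t.1 t.2.1 g1, count_of _ _ _ g2 g3,
      div_le_div_iff₀ he hq']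
    exact_mod_cast g4
  rw [hE]
  rcases h5 x (List.mem_finRange x) y (List.mem_finRange y) with ((h6 | h6) | h6) | ⟨t, ht, h6⟩
  · exact absurd h6 hne
  · exact absurd (Or.inr h6) hxy
  · exact absurd (Or.inr h6) hyx
  · have h7 := hcount t ht
    rcases h6 with ⟨h6, h8⟩ | ⟨h6, h8⟩
    · rw [h6, h8] at h7
      exact (min_le_left _ _).trans h7
    · rw [h6, h8] at h7
      exact (min_le_right _ _).trans h7

/-- the bound for the infimum -/
theorem Cert.delta (c : Cert n) (w p q : ℕ) (hO : c.okO = true) (hW : c.okW w = true)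
    (hC : c.okC p q = true) (hq : 0 < q) (δ : ℕ → ℝ)
    (hδ : ∀ w : ℕ, δ w = sInf {d : ℝ | ∃ (n : ℕ) (r : Fin n → Fin n → Prop),
          (∀ a, r a a) ∧ (∀ a b c, r a b → r b c → r a c) ∧
          (∀ a b, r a b → r b a → a = b) ∧
          (∃ s : Finset (Fin n), s.card = w ∧ ∀ a ∈ s, ∀ b ∈ s, a ≠ b → ¬ r a b) ∧
          (∀ s : Finset (Fin n), (∀ a ∈ s, ∀ b ∈ s, a ≠ b → ¬ r a b) → s.card ≤ w) ∧
          d = sSup {t : ℝ | ∃ x y : Fin n, ¬ r x y ∧ ¬ r y x ∧
            t = min
              ((Nat.card {σ : Equiv.Perm (Fin n) //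
                  (∀ a b, r a b → σ a ≤ σ b) ∧ σ x < σ y} : ℝ) /
                (Nat.card {σ : Equiv.Perm (Fin n) // ∀ a b, r a b → σ a ≤ σ b} : ℝ))
              ((Nat.card {σ : Equiv.Perm (Fin n) //
                  (∀ a b, r a b → σ a ≤ σ b) ∧ σ y < σ x} : ℝ) /
                (Nat.card {σ : Equiv.Perm (Fin n) // ∀ a b, r a b → σ a ≤ σ b} : ℝ))}}) :
    δ w ≤ (p : ℝ) / q := by
  obtain ⟨h1, h2, h3⟩ := c.po hO
  obtain ⟨h4, h5⟩ := c.wid w hW
  rw [hδ w]
  refine csInf_le_of_le ⟨0, ?_⟩ ⟨n, c.r, h1, h2, h3, h4, h5, rfl⟩ ?_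
  · rintro d ⟨m, q, -, -, -, -, -, rfl⟩
    apply Real.sSup_nonneg
    rintro t ⟨x, y, -, -, rfl⟩
    exact le_min (by positivity) (by positivity)
  · apply Real.sSup_le _ (by positivity)
    rintro t ⟨x, y, hxy, hyx, rfl⟩
    exact c.bal p q hO hC hq x y hxy hyx

end Run7.h281.LX
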